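import Pool.Agent.N805.VP.Stm2

/-! # Project VP: differentiating concave functions -/

set_option autoImplicit false

open MeasureTheory Set Filter Topology

namespace Pool.Agent.N814.VP

open Pool.Agent.N805.VP

lemma sum_le (M : ℕ) (d : ℕ → ℝ) (s δ : ℝ) (hδ : 0 < δ) :
    ∑ n ∈ Finset.Ico 1 M, min (s + δ) (d n) - ∑ n ∈ Finset.Ico 1 M, min s (d n) ≤
      δ * (((Finset.Ico 1 M).filter fun n => s < d n).card : ℝ) := by
  rw [Finset.card_filter, ← Finset.sum_sub_distrib]
  push_cast
  rw [Finset.mul_sum]
  refine Finset.sum_le_sum fun n _ => ?_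
  split_ifs with h
  · rw [mul_one, min_eq_left h.le]
    have := min_le_left (s + δ) (d n)
    linarith
  · rw [mul_zero]
    have h' := not_lt.1 h
    rw [min_eq_right h', min_eq_right (by linarith)]
    linarith

lemma le_sum (M : ℕ) (d : ℕ → ℝ) (s t : ℝ) (ht : t < 0) :
    (-t) * (((Finset.Ico 1 M).filter fun n => s < d n).card : ℝ) ≤
      ∑ n ∈ Finset.Ico 1 M, min s (d n) - ∑ n ∈ Finset.Ico 1 M, min (s + t) (d n) := by
  rw [Finset.card_filter, ← Finset.sum_sub_distrib]
  push_cast
  rw [Finset.mul_sum]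
  refine Finset.sum_le_sum fun n _ => ?_
  split_ifs with h
  · rw [mul_one, min_eq_left h.le]
    have := min_le_left (s + t) (d n)
    linarith
  · rw [mul_zero]
    have h1 : min (s + t) (d n) ≤ min s (d n) := min_le_min_right _ (by linarith)
    linarith

theorem LAW : S_LAW := by
  classical
  intro l N d X e hX hN he hA s hs
  have hXpos : ∀ᶠ T in l, 0 < X T := hX.eventually_gt_atTop 0
  have hder : HasDerivAt e (deriv e s) s :=
    (he.differentiable (by norm_num)).differentiableAt.hasDerivAt
  have hslope := hasDerivAt_iff_tendsto_slope_zero.1 hder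
  obtain ⟨F, hFdef⟩ : ∃ F : ℝ → ℝ, F = fun T =>
    (((Finset.Ico 1 (N T)).filter fun n => s < d T n).card : ℝ) := ⟨_, rfl⟩
  have hF : Tendsto (fun T => F T / X T) l (𝓝 (-(deriv e s))) := by
    refine tendsto_order.2 ⟨fun a ha => ?_, fun b hb => ?_⟩
    · have h1 : ∀ᶠ δ in 𝓝[>] (0:ℝ), δ⁻¹ • (e (s + δ) - e s) < -a :=
        (hslope.mono_left (nhdsWithin_mono 0 fun x hx => (ne_of_gt hx : x ≠ 0))).eventually_lt_const
          (by linarith)
      obtain ⟨δ, h2, hδ⟩ := (h1.and self_mem_nhdsWithin).exists
      have hδ' : 0 < δ := hδ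
      have h3 := ((hA (s + δ) (by linarith)).sub (hA s hs)).div_const δ
      have h4 : a < (1 - e (s + δ) - (1 - e s)) / δ := by
        rw [smul_eq_mul] at h2
        rw [lt_div_iff₀ hδ']
        have h5 : δ * (δ⁻¹ * (e (s + δ) - e s)) < δ * (-a) := mul_lt_mul_of_pos_left h2 hδ'
        rw [mul_inv_cancel_left₀ hδ'.ne'] at h5
        linarith
      filter_upwards [h3.eventually_const_lt h4, hXpos] with T h5 h6
      refine h5.trans_le ?_
      rw [div_sub_div_same, div_div, div_le_div_iff₀ (by positivity) h6]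
      have h7 := sum_le (N T) (d T) s δ hδ'
      have h8 : F T = (((Finset.Ico 1 (N T)).filter fun n => s < d T n).card : ℝ) := by
        rw [hFdef]
      rw [← h8] at h7
      nlinarith [mul_le_mul_of_nonneg_right h7 h6.le]
    · have h1 : ∀ᶠ t in 𝓝[<] (0:ℝ), -b < t⁻¹ • (e (s + t) - e s) :=
        (hslope.mono_left (nhdsWithin_mono 0 fun x hx => (ne_of_lt hx : x ≠ 0))).eventually_const_lt
          (by linarith)
      have h1' : ∀ᶠ t in 𝓝[<] (0:ℝ), -s < t :=
        nhdsWithin_le_nhds (lt_mem_nhds (by linarith))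
      obtain ⟨t, ⟨h2, hts⟩, ht⟩ := ((h1.and h1').and self_mem_nhdsWithin).exists
      have ht' : t < 0 := ht
      have h3 := ((hA s hs).sub (hA (s + t) (by linarith))).div_const (-t)
      have h4 : ((1 - e s) - (1 - e (s + t))) / (-t) < b := by
        rw [smul_eq_mul] at h2
        rw [div_lt_iff₀ (by linarith)]
        have h5 : (-t) * (-b) < (-t) * (t⁻¹ * (e (s + t) - e s)) :=
          mul_lt_mul_of_pos_left h2 (by linarith)
        have h6 : (-t) * (t⁻¹ * (e (s + t) - e s)) = -(e (s + t) - e s) := by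
          rw [neg_mul, mul_inv_cancel_left₀ ht'.ne]
        rw [h6] at h5
        linarith
      filter_upwards [h3.eventually_lt_const h4, hXpos] with T h5 h6
      refine lt_of_le_of_lt ?_ h5
      rw [div_sub_div_same, div_div, div_le_div_iff₀ h6 (mul_pos h6 (by linarith))]
      have h7 := le_sum (N T) (d T) s t ht'
      have h8 : F T = (((Finset.Ico 1 (N T)).filter fun n => s < d T n).card : ℝ) := by
        rw [hFdef]
      rw [← h8] at h7
      nlinarith [mul_le_mul_of_nonneg_right h7 h6.le]
  -- division by N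
  have hNX : Tendsto (fun T => (N T : ℝ)) l atTop := by
    have h1 : Tendsto (fun T => (N T : ℝ) / X T * X T) l atTop :=
      Tendsto.pos_mul_atTop one_pos hN hX
    refine h1.congr' ?_
    filter_upwards [hXpos] with T h
    rw [div_mul_cancel₀ _ h.ne']
  have hFN : Tendsto (fun T => F T / N T) l (𝓝 (-(deriv e s))) := by
    have h1 := hF.div hN one_ne_zero
    rw [div_one] at h1
    refine h1.congr' ?_
    filter_upwards [hXpos] with T h
    rw [Pi.div_apply, div_div_div_cancel_right₀ h.ne']
  have hinv : Tendsto (fun T => 1 / (N T : ℝ)) l (𝓝 0) := by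
    have h1 := hNX.inv_tendsto_atTop
    refine h1.congr fun T => ?_
    rw [Pi.inv_apply, one_div]
  have hlow : Tendsto (fun T => 1 - F T / N T - 1 / (N T : ℝ)) l (𝓝 (1 + deriv e s)) := by
    have h1 := ((tendsto_const_nhds (x := (1:ℝ))).sub hFN).sub hinv
    have h2 : (1:ℝ) - -(deriv e s) - 0 = 1 + deriv e s := by ring
    rw [h2] at h1
    exact h1
  have hupp : Tendsto (fun T => 1 - F T / N T) l (𝓝 (1 + deriv e s)) := by
    have h1 := ((tendsto_const_nhds (x := (1:ℝ))).sub hFN)
    have h2 : (1:ℝ) - -(deriv e s) = 1 + deriv e s := by ring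
    rw [h2] at h1
    exact h1
  have hNpos : ∀ᶠ T in l, (0:ℝ) < N T := hNX.eventually_gt_atTop 0
  have hcard : ∀ T, (0:ℝ) < N T →
      (N T : ℝ) - F T - 1 ≤ (((Finset.Icc 1 (N T)).filter fun n => d T n ≤ s).card : ℝ) ∧
      (((Finset.Icc 1 (N T)).filter fun n => d T n ≤ s).card : ℝ) ≤ (N T : ℝ) - F T := by
    intro T hT
    have hT' : 0 < N T := by exact_mod_cast hT
    have h1 := Finset.card_filter_add_card_filter_not (s := Finset.Icc 1 (N T))
      (fun n => d T n ≤ s)
    simp only [not_le] at h1
    have h2 : ((Finset.Ico 1 (N T)).filter fun n => s < d T n).card ≤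
        ((Finset.Icc 1 (N T)).filter fun n => s < d T n).card :=
      Finset.card_le_card (Finset.filter_subset_filter _ Finset.Ico_subset_Icc_self)
    have h3 : ((Finset.Icc 1 (N T)).filter fun n => s < d T n).card ≤
        ((Finset.Ico 1 (N T)).filter fun n => s < d T n).card + 1 := by
      refine le_trans (Finset.card_le_card (t := insert (N T)
        ((Finset.Ico 1 (N T)).filter fun n => s < d T n)) ?_) (Finset.card_insert_le _ _)
      intro n hn
      obtain ⟨hn1, hn2⟩ := Finset.mem_filter.1 hn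
      rw [Finset.mem_Icc] at hn1
      rw [Finset.mem_insert, Finset.mem_filter, Finset.mem_Ico]
      by_cases h : n = N T
      · exact Or.inl h
      · exact Or.inr ⟨⟨hn1.1, by omega⟩, hn2⟩
    rw [Nat.card_Icc] at h1
    have h1R : (((Finset.Icc 1 (N T)).filter fun n => d T n ≤ s).card : ℝ) +
        (((Finset.Icc 1 (N T)).filter fun n => s < d T n).card : ℝ) = N T := by
      have : ((Finset.Icc 1 (N T)).filter fun n => d T n ≤ s).card +
        ((Finset.Icc 1 (N T)).filter fun n => s < d T n).card = N T := by omega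
      exact_mod_cast this
    have h2R : (((Finset.Ico 1 (N T)).filter fun n => s < d T n).card : ℝ) ≤
        (((Finset.Icc 1 (N T)).filter fun n => s < d T n).card : ℝ) := by exact_mod_cast h2
    have h3R : (((Finset.Icc 1 (N T)).filter fun n => s < d T n).card : ℝ) ≤
        (((Finset.Ico 1 (N T)).filter fun n => s < d T n).card : ℝ) + 1 := by exact_mod_cast h3
    rw [hFdef]
    constructor
    · linarith
    · linarith
  have hfin : Tendsto (fun T => (((Finset.Icc 1 (N T)).filter fun n => d T n ≤ s).card : ℝ) /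
      N T) l (𝓝 (1 + deriv e s)) := by
    refine tendsto_of_tendsto_of_tendsto_of_le_of_le' hlow hupp ?_ ?_
    · filter_upwards [hNpos] with T h
      have h1 := (hcard T h).1
      rw [le_div_iff₀ h, sub_mul, sub_mul, div_mul_cancel₀ _ h.ne', div_mul_cancel₀ _ h.ne']
      linarith
    · filter_upwards [hNpos] with T h
      have h1 := (hcard T h).2
      rw [div_le_iff₀ h, sub_mul, div_mul_cancel₀ _ h.ne']
      linarith
  convert hfin using 5

end Pool.Agent.N814.VP
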